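import Pool.Agent.P8H73.GM.Stm

/-!
Package SIE of project GM: the sieve of Selberg for progressions in intervals.
-/

set_option autoImplicit false

namespace Pool.Agent.P8H20.GM

open Finset Pool.Agent.H376R2.MR Pool.Agent.H376R2.TT Pool.Agent.P8H73.GM
open scoped ArithmeticFunction.Moebius

/-- the weights -/
theorem wts (q : ℕ) (D : ℕ) (hD1 : 1 ≤ D) : ∃ l : ℕ → ℝ, l 1 = 1 ∧ (∀ d, |l d| ≤ 1) ∧
    (∀ d, ¬ d.Coprime q → l d = 0) ∧
    ∑ d ∈ Icc 1 D, ∑ e ∈ Icc 1 D, l d * l e / (Nat.lcm d e : ℝ) = (selwq_G q D)⁻¹ := by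
  have hG := selwq_G_pos q hD1
  refine ⟨selwq_l q D, ?_, ?_, ?_, ?_⟩
  · unfold selwq_l
    have : (Icc 1 D).filter (fun m => 1 ∣ m) = Icc 1 D :=
      Finset.filter_true_of_mem (fun m _ => one_dvd m)
    rw [this]
    show ((1 : ℕ) : ℝ) * ((μ 1 : ℤ) : ℝ) * (selwq_G q D)⁻¹ * selwq_G q D = 1
    rw [ArithmeticFunction.moebius_apply_one]
    push_cast
    field_simp
  · intro d
    by_cases hs : Squarefree d
    · by_cases hdq : d.Coprime q
      · have h1 := selwq_key q D d hs hdq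
        have hnn : 0 ≤ ∑ m ∈ (Icc 1 D).filter (fun m => d ∣ m), selwq_g q m :=
          Finset.sum_nonneg fun m _ => selwq_g_nonneg q m
        have h2 : |((μ d : ℤ) : ℝ)| = 1 := by
          have := ArithmeticFunction.moebius_sq_eq_one_of_squarefree hs
          have h3 : ((μ d : ℤ) : ℝ) ^ 2 = 1 := by exact_mod_cast this
          rw [← sq_abs] at h3
          nlinarith [abs_nonneg ((μ d : ℤ) : ℝ)]
        unfold selwq_l
        rw [abs_mul, abs_mul, abs_mul, h2, abs_of_nonneg (Nat.cast_nonneg d), mul_one,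
          abs_of_pos (inv_pos.2 hG), abs_of_nonneg hnn]
        calc (d : ℝ) * (selwq_G q D)⁻¹ * ∑ m ∈ (Icc 1 D).filter (fun m => d ∣ m), selwq_g q m =
            (selwq_G q D)⁻¹ *
              ((d : ℝ) * ∑ m ∈ (Icc 1 D).filter (fun m => d ∣ m), selwq_g q m) := by ring
          _ ≤ (selwq_G q D)⁻¹ * selwq_G q D := mul_le_mul_of_nonneg_left h1 (inv_pos.2 hG).le
          _ = 1 := inv_mul_cancel₀ hG.ne'
      · rw [selwq_l_zero q D d hdq]
        simp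
    · unfold selwq_l
      rw [ArithmeticFunction.moebius_eq_zero_of_not_squarefree hs]
      simp
  · exact fun d hd => selwq_l_zero q D d hd
  · exact selwq_form q D hD1

/-- the number of the members of a class in an interval -/
theorem count (x y : ℝ) (M : ℕ) (hM : 1 ≤ M) (c : ℤ) (hy : 0 < y) :
    |(((Ioc ⌊x - y⌋ ⌊x⌋).filter (fun n => n ≡ c [ZMOD (M : ℤ)])).card : ℝ) - y / M| ≤ 1 := by
  have hM0 : (0 : ℤ) < M := by exact_mod_cast hM
  have hMr : (0 : ℝ) < M := by exact_mod_cast hM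
  have hMq : (0 : ℚ) < M := by exact_mod_cast hM
  have h1 := Int.Ioc_filter_modEq_card ⌊x - y⌋ ⌊x⌋ hM0 c
  -- bounds for the floors
  have hfl : ∀ z : ℝ, (M : ℝ) * (⌊((⌊z⌋ : ℚ) - c) / ((M : ℤ) : ℚ)⌋ : ℝ) ≤ z - c ∧
      z - c < (M : ℝ) * ((⌊((⌊z⌋ : ℚ) - c) / ((M : ℤ) : ℚ)⌋ : ℝ) + 1) := by
    intro z
    set F : ℤ := ⌊((⌊z⌋ : ℚ) - c) / ((M : ℤ) : ℚ)⌋ with hF
    have e1 : (F : ℚ) ≤ ((⌊z⌋ : ℚ) - c) / ((M : ℤ) : ℚ) := Int.floor_le _
    have e2 : ((⌊z⌋ : ℚ) - c) / ((M : ℤ) : ℚ) < (F : ℚ) + 1 := Int.lt_floor_add_one _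
    have hMq' : (0 : ℚ) < ((M : ℤ) : ℚ) := by exact_mod_cast hM0
    rw [le_div_iff₀ hMq'] at e1
    rw [div_lt_iff₀ hMq'] at e2
    have e3 : F * (M : ℤ) ≤ ⌊z⌋ - c := by exact_mod_cast e1
    have e4 : ⌊z⌋ - c < (F + 1) * (M : ℤ) := by exact_mod_cast e2
    have e5 : ⌊z⌋ - c + 1 ≤ (F + 1) * (M : ℤ) := by omega
    have e3' : (F : ℝ) * M ≤ (⌊z⌋ : ℝ) - c := by exact_mod_cast e3
    have e5' : (⌊z⌋ : ℝ) - c + 1 ≤ ((F : ℝ) + 1) * M := by exact_mod_cast e5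
    have e6 := Int.floor_le z
    have e7 := Int.lt_floor_add_one z
    constructor <;> nlinarith
  obtain ⟨a1, a2⟩ := hfl x
  obtain ⟨b1, b2⟩ := hfl (x - y)
  set F : ℤ := ⌊((⌊x⌋ : ℚ) - c) / ((M : ℤ) : ℚ)⌋ with hF
  set F' : ℤ := ⌊((⌊x - y⌋ : ℚ) - c) / ((M : ℤ) : ℚ)⌋ with hF'
  have hge : F' ≤ F := by
    apply Int.floor_le_floor
    have : (⌊x - y⌋ : ℤ) ≤ ⌊x⌋ := Int.floor_le_floor (by linarith)
    have h2 : ((⌊x - y⌋ : ℤ) : ℚ) ≤ (⌊x⌋ : ℚ) := by exact_mod_cast this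
    have hMq' : (0 : ℚ) < ((M : ℤ) : ℚ) := by exact_mod_cast hM0
    exact div_le_div_of_nonneg_right (by linarith) hMq'.le
  rw [max_eq_left (by omega)] at h1
  have h2 : (((Ioc ⌊x - y⌋ ⌊x⌋).filter (fun n => n ≡ c [ZMOD (M : ℤ)])).card : ℝ) =
      (F : ℝ) - F' := by
    have : (((Ioc ⌊x - y⌋ ⌊x⌋).filter (fun n => n ≡ c [ZMOD (M : ℤ)])).card : ℤ) = F - F' := h1
    exact_mod_cast this
  rw [h2, abs_le]
  have h3 : y / M * M = y := div_mul_cancel₀ y hMr.ne'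
  constructor
  · have : (M : ℝ) * (y / M - 1) ≤ M * ((F : ℝ) - F') := by nlinarith
    have := le_of_mul_le_mul_left this hMr
    linarith
  · have : M * ((F : ℝ) - F') ≤ (M : ℝ) * (y / M + 1) := by nlinarith
    have := le_of_mul_le_mul_left this hMr
    linarith

/-- the members of a class divisible by `m` -/
theorem count2 (x y : ℝ) (k m : ℕ) (hk : 1 ≤ k) (hm : 1 ≤ m) (hkm : m.Coprime k) (l : ℤ) (hy : 0 < y) :
    |((((Ioc ⌊x - y⌋ ⌊x⌋).filter (fun n => n ≡ l [ZMOD (k : ℤ)])).filter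
      (fun n => (m : ℤ) ∣ n)).card : ℝ) - y / k / m| ≤ 1 := by
  have hco : IsCoprime (m : ℤ) (k : ℤ) := Nat.isCoprime_iff_coprime.2 hkm
  obtain ⟨a, b, hab⟩ := hco
  have h := count x y (m * k) (Nat.mul_pos hm hk) (l * (a * m)) hy
  have heq : ((Ioc ⌊x - y⌋ ⌊x⌋).filter (fun n => n ≡ l [ZMOD (k : ℤ)])).filter
      (fun n => (m : ℤ) ∣ n) =
      (Ioc ⌊x - y⌋ ⌊x⌋).filter (fun n => n ≡ l * (a * m) [ZMOD ((m * k : ℕ) : ℤ)]) := by
    rw [Finset.filter_filter]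
    apply Finset.filter_congr
    intro n _
    have e1 : n ≡ l * (a * m) [ZMOD ((m * k : ℕ) : ℤ)] ↔
        n ≡ l * (a * m) [ZMOD (m : ℤ)] ∧ n ≡ l * (a * m) [ZMOD (k : ℤ)] := by
      rw [Nat.cast_mul]
      exact (Int.modEq_and_modEq_iff_modEq_mul (by simpa using hkm)).symm
    have e2 : l * (a * m) ≡ 0 [ZMOD (m : ℤ)] := by
      rw [Int.modEq_zero_iff_dvd]
      exact ⟨l * a, by ring⟩
    have e3 : l * (a * m) ≡ l [ZMOD (k : ℤ)] := by
      rw [Int.modEq_iff_dvd]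
      refine ⟨l * b, ?_⟩
      have : a * (m : ℤ) = 1 - b * k := by linarith
      rw [this]
      ring
    rw [e1]
    constructor
    · rintro ⟨h1, h2⟩
      exact ⟨((Int.modEq_zero_iff_dvd.2 h2).trans e2.symm), h1.trans e3.symm⟩
    · rintro ⟨h1, h2⟩
      exact ⟨h2.trans e3, Int.modEq_zero_iff_dvd.1 (h1.trans e2)⟩
  rw [heq]
  have h3 : y / k / m = y / ((m * k : ℕ) : ℝ) := by
    rw [Nat.cast_mul, div_div, mul_comm]
  rw [h3]
  exact h

theorem sie : S_SIE := by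
  intro k D l x y hk hD hy hyx
  obtain ⟨w, hw1, hwb, hwk, hwf⟩ := wts k D hD
  set A : Finset ℤ := (Ioc ⌊x - y⌋ ⌊x⌋).filter (fun n => n ≡ l [ZMOD (k : ℤ)]) with hA
  set T : Finset ℤ := A.filter (fun n => n.natAbs.Prime ∧ (D : ℤ) < n) with hT
  -- the number of the primes
  have h1 : N x y k l ≤ D + T.card := by
    unfold N
    set S : Set ℕ := {p : ℕ | p.Prime ∧ x - y < (p : ℝ) ∧ (p : ℝ) ≤ x ∧ (p : ℤ) ≡ l [ZMOD (k : ℤ)]} with hS
    have hsub : S ⊆ ((Icc 1 D ∪ T.image Int.natAbs : Finset ℕ) : Set ℕ) := by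
      intro p hp
      obtain ⟨hp1, hp2, hp3, hp4⟩ := hp
      rw [Finset.mem_coe, Finset.mem_union]
      by_cases hpD : p ≤ D
      · left
        exact Finset.mem_Icc.2 ⟨hp1.one_lt.le, hpD⟩
      · right
        refine Finset.mem_image.2 ⟨(p : ℤ), ?_, by simp⟩
        rw [hT, hA, Finset.mem_filter, Finset.mem_filter, Finset.mem_Ioc]
        refine ⟨⟨⟨?_, ?_⟩, hp4⟩, by simpa using hp1, by exact_mod_cast (by omega : D < p)⟩
        · rw [Int.floor_lt]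
          exact_mod_cast hp2
        · rw [Int.le_floor]
          exact_mod_cast hp3
    calc S.ncard ≤ ((Icc 1 D ∪ T.image Int.natAbs : Finset ℕ) : Set ℕ).ncard :=
          Set.ncard_le_ncard hsub (Finset.finite_toSet _)
      _ = (Icc 1 D ∪ T.image Int.natAbs : Finset ℕ).card := Set.ncard_coe_finset _
      _ ≤ (Icc 1 D).card + (T.image Int.natAbs).card := Finset.card_union_le _ _
      _ ≤ D + T.card := by
          rw [Nat.card_Icc]
          have := Finset.card_image_le (s := T) (f := Int.natAbs)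
          omega
  -- the sieve
  have h2 : (T.card : ℝ) ≤ ∑ n ∈ A, (∑ d ∈ Icc 1 D, w d * (if (d : ℤ) ∣ n then (1 : ℝ) else 0)) ^ 2 := by
    have e1 : (T.card : ℝ) = ∑ n ∈ T, (∑ d ∈ Icc 1 D, w d * (if (d : ℤ) ∣ n then (1 : ℝ) else 0)) ^ 2 := by
      rw [Finset.card_eq_sum_ones, Nat.cast_sum]
      refine Finset.sum_congr rfl fun n hn => ?_
      rw [hT, Finset.mem_filter] at hn
      obtain ⟨_, hnp, hnD⟩ := hn
      have e2 : ∑ d ∈ Icc 1 D, w d * (if (d : ℤ) ∣ n then (1 : ℝ) else 0) = 1 := by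
        rw [Finset.sum_eq_single_of_mem 1 (by rw [Finset.mem_Icc]; omega)]
        · rw [hw1, if_pos (by simp)]
          norm_num
        · intro d hd hd1
          rw [Finset.mem_Icc] at hd
          rw [if_neg, mul_zero]
          intro hdv
          rw [Int.natCast_dvd] at hdv
          rcases (Nat.dvd_prime hnp).1 hdv with h | h
          · exact hd1 h
          · omega
      rw [e2]
      norm_num
    rw [e1]
    exact Finset.sum_le_sum_of_subset_of_nonneg (Finset.filter_subset _ _) fun _ _ _ => sq_nonneg _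
  have h3 : ∑ n ∈ A, (∑ d ∈ Icc 1 D, w d * (if (d : ℤ) ∣ n then (1 : ℝ) else 0)) ^ 2 =
      ∑ d ∈ Icc 1 D, ∑ e ∈ Icc 1 D, w d * w e *
        ((A.filter (fun n => ((Nat.lcm d e : ℕ) : ℤ) ∣ n)).card : ℝ) := by
    have e1 : ∀ n ∈ A, (∑ d ∈ Icc 1 D, w d * (if (d : ℤ) ∣ n then (1 : ℝ) else 0)) ^ 2 =
        ∑ d ∈ Icc 1 D, ∑ e ∈ Icc 1 D, w d * w e * (if ((Nat.lcm d e : ℕ) : ℤ) ∣ n then (1 : ℝ) else 0) := by
      intro n _
      rw [pow_two, Finset.sum_mul_sum]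
      refine Finset.sum_congr rfl fun a _ => Finset.sum_congr rfl fun b _ => ?_
      have hiff : ((Nat.lcm a b : ℕ) : ℤ) ∣ n ↔ (a : ℤ) ∣ n ∧ (b : ℤ) ∣ n := by
        rw [Int.natCast_dvd, Int.natCast_dvd, Int.natCast_dvd]
        exact Nat.lcm_dvd_iff
      by_cases h1 : (a : ℤ) ∣ n
      · by_cases h2 : (b : ℤ) ∣ n
        · rw [if_pos (hiff.2 ⟨h1, h2⟩), if_pos h1, if_pos h2]
          ring
        · rw [if_neg (fun h => h2 (hiff.1 h).2), if_neg h2]
          ring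
      · rw [if_neg (fun h => h1 (hiff.1 h).1), if_neg h1]
        ring
    rw [Finset.sum_congr rfl e1, Finset.sum_comm]
    refine Finset.sum_congr rfl fun d _ => ?_
    rw [Finset.sum_comm]
    refine Finset.sum_congr rfl fun e _ => ?_
    rw [← Finset.mul_sum, ← Finset.sum_filter, Finset.sum_const, nsmul_eq_mul, mul_one]
  have h4 : ∑ d ∈ Icc 1 D, ∑ e ∈ Icc 1 D, w d * w e *
        ((A.filter (fun n => ((Nat.lcm d e : ℕ) : ℤ) ∣ n)).card : ℝ) ≤
      ∑ d ∈ Icc 1 D, ∑ e ∈ Icc 1 D, (y / k * (w d * w e / (Nat.lcm d e : ℝ)) + 1) := by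
    refine Finset.sum_le_sum fun d hd => Finset.sum_le_sum fun e he => ?_
    rw [Finset.mem_Icc] at hd he
    by_cases h0 : w d * w e = 0
    · rw [h0]
      simp
    · have hdk : d.Coprime k := by
        by_contra hn
        exact h0 (by rw [hwk d hn, zero_mul])
      have hek : e.Coprime k := by
        by_contra hn
        exact h0 (by rw [hwk e hn, mul_zero])
      have hlk : (Nat.lcm d e).Coprime k :=
        Nat.Coprime.coprime_dvd_left (Nat.lcm_dvd_mul d e) (Nat.Coprime.mul_left hdk hek)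
      have hl1 : 1 ≤ Nat.lcm d e := Nat.lcm_pos hd.1 he.1
      have hc := count2 x y k (Nat.lcm d e) hk hl1 hlk l hy
      have hab : |w d * w e| ≤ 1 := by
        rw [abs_mul]
        calc |w d| * |w e| ≤ 1 * 1 := mul_le_mul (hwb d) (hwb e) (abs_nonneg _) zero_le_one
          _ = 1 := one_mul 1
      set X : ℝ := ((A.filter (fun n => ((Nat.lcm d e : ℕ) : ℤ) ∣ n)).card : ℝ) with hX
      have h5 : w d * w e * (X - y / k / (Nat.lcm d e : ℝ)) ≤ 1 := by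
        calc w d * w e * (X - y / k / (Nat.lcm d e : ℝ)) ≤
            |w d * w e * (X - y / k / (Nat.lcm d e : ℝ))| := le_abs_self _
          _ = |w d * w e| * |X - y / k / (Nat.lcm d e : ℝ)| := abs_mul _ _
          _ ≤ 1 * 1 := mul_le_mul hab hc (abs_nonneg _) zero_le_one
          _ = 1 := one_mul 1
      have h6 : y / k * (w d * w e / (Nat.lcm d e : ℝ)) = w d * w e * (y / k / (Nat.lcm d e : ℝ)) := by
        ring
      rw [h6]
      linarith
  have h5 : ∑ d ∈ Icc 1 D, ∑ e ∈ Icc 1 D, (y / k * (w d * w e / (Nat.lcm d e : ℝ)) + 1) =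
      y / k * (selwq_G k D)⁻¹ + (D : ℝ) ^ 2 := by
    rw [← hwf]
    simp only [Finset.sum_add_distrib, ← Finset.mul_sum, Finset.sum_const, Nat.card_Icc, nsmul_eq_mul,
      Nat.add_sub_cancel, mul_one]
    ring
  have h6 : (N x y k l : ℝ) ≤ D + T.card := by exact_mod_cast h1
  rw [div_eq_mul_inv (y / k)]
  linarith

end Pool.Agent.P8H20.GM
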