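import Pool.Agent.P8H73.GM.Stm

/-!
Package UP of project GM: a sieve bound in short multiplicative intervals.
-/

set_option autoImplicit false

namespace Pool.Agent.P8H20.GM

open Finset Pool.Agent.H376R2.MR Pool.Agent.H376R2.TT Pool.Agent.P8H73.GM

theorem pr_squarefree (K : Finset ℕ) (hK : ∀ p ∈ K, p.Prime) : Squarefree (pr K) := by
  unfold Pool.Agent.P8H73.GM.pr
  exact Finset.squarefree_prod_of_pairwise_isCoprime
    (fun a ha b hb hab => Nat.coprime_iff_isRelPrime.1 ((Nat.coprime_primes (hK a ha) (hK b hb)).2 hab))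
    (fun a ha => (hK a ha).squarefree)

theorem pr_primeFactors (K : Finset ℕ) (hK : ∀ p ∈ K, p.Prime) : (pr K).primeFactors = K := by
  unfold Pool.Agent.P8H73.GM.pr
  exact Nat.primeFactors_prod hK

theorem pr_pos (K : Finset ℕ) (hK : ∀ p ∈ K, p.Prime) : 0 < pr K :=
  Finset.prod_pos fun p hp => (hK p hp).pos

theorem V_pos (K : Finset ℕ) (hK : ∀ p ∈ K, p.Prime) : 0 < V K := by
  unfold V
  refine Finset.prod_pos fun p hp => ?_
  have h2 : (2 : ℝ) ≤ p := by exact_mod_cast (hK p hp).two_le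
  have : 1 / (p : ℝ) < 1 := by
    rw [div_lt_one (by linarith)]
    linarith
  linarith

/-- `∑ 1 / φ(l)` over the divisors -/
theorem sum_div (K : Finset ℕ) (hK : ∀ p ∈ K, p.Prime) :
    V K * ∑ l ∈ (pr K).divisors, sw_g l = 1 := by
  have h1 := sw_sum (pr_squarefree K hK)
  have h2 := sw_phi (pr K)
  rw [pr_primeFactors K hK] at h2
  have h3 : ∏ p ∈ K, (1 - (p : ℝ)⁻¹) = V K := by
    unfold V
    simp only [one_div]
  rw [h3] at h2
  rw [h2] at h1
  have h4 : (0 : ℝ) < (pr K : ℝ) := by exact_mod_cast pr_pos K hK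
  have h5 : (pr K : ℝ) * (V K * ∑ l ∈ (pr K).divisors, sw_g l) = (pr K : ℝ) * 1 := by
    rw [mul_one, ← mul_assoc]
    exact h1
  exact mul_left_cancel₀ h4.ne' h5

/-- the divisors which are multiples of `p` -/
theorem sum_dvd {q p : ℕ} (hq : Squarefree q) (hp : p.Prime) (hpq : p ∣ q) :
    (p : ℝ) * ∑ l ∈ q.divisors.filter (fun l => p ∣ l), sw_g l = ∑ l ∈ q.divisors, sw_g l := by
  obtain ⟨r, rfl⟩ := hpq
  have hcop : p.Coprime r := sw_coprime hq
  have hr : Squarefree r := ((Nat.squarefree_mul hcop).1 hq).2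
  have h1 := sw_sum hq
  have h2 := sw_sum hr
  have h3 : ((p * r).divisors.filter (fun l => ¬ p ∣ l)) = r.divisors := by
    ext l
    rw [Finset.mem_filter, Nat.mem_divisors, Nat.mem_divisors]
    constructor
    · rintro ⟨⟨h, _⟩, hn⟩
      refine ⟨?_, hr.ne_zero⟩
      exact Nat.Coprime.dvd_of_dvd_mul_left ((Nat.Prime.coprime_iff_not_dvd hp).2 hn).symm h
    · rintro ⟨h, _⟩
      refine ⟨⟨Dvd.dvd.mul_left h p, hq.ne_zero⟩, fun hpl => ?_⟩
      exact (Nat.Prime.coprime_iff_not_dvd hp).1 hcop (hpl.trans h)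
  have h4 := Finset.sum_filter_add_sum_filter_not (p * r).divisors (fun l => p ∣ l) sw_g
  rw [h3] at h4
  rw [Nat.totient_mul hcop, Nat.totient_prime hp] at h1
  have hp1 : (1 : ℝ) < p := by exact_mod_cast hp.one_lt
  rw [Nat.cast_mul, Nat.cast_sub hp.one_lt.le, Nat.cast_one, Nat.cast_mul] at h1
  have hφ : (0 : ℝ) < Nat.totient r := by
    exact_mod_cast Nat.totient_pos.2 (Nat.pos_of_ne_zero hr.ne_zero)
  set F := ∑ l ∈ (p * r).divisors, sw_g l
  set F' := ∑ l ∈ r.divisors, sw_g l
  set X := ∑ l ∈ (p * r).divisors.filter (fun l => p ∣ l), sw_g l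
  -- (p - 1) φ F = p r = p φ F'
  have h5 : ((p : ℝ) - 1) * F = p * F' := by
    have : (Nat.totient r : ℝ) * (((p : ℝ) - 1) * F) = Nat.totient r * (p * F') := by
      calc (Nat.totient r : ℝ) * (((p : ℝ) - 1) * F) = ((p : ℝ) - 1) * Nat.totient r * F := by ring
        _ = p * r := h1
        _ = p * (Nat.totient r * F') := by rw [h2]
        _ = _ := by ring
    exact mul_left_cancel₀ hφ.ne' this
  have h6 : X = F - F' := by linarith
  rw [h6]
  linarith

theorem log_squarefree {l : ℕ} (hl : Squarefree l) : Real.log l = ∑ p ∈ l.primeFactors, Real.log p := by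
  have h := Nat.prod_primeFactors_of_squarefree hl
  conv_lhs => rw [← h]
  rw [Nat.cast_prod, Real.log_prod]
  intro p hp
  have := (Nat.prime_of_mem_primeFactors hp).ne_zero
  exact_mod_cast this

/-- `∑ log l / φ(l)` over the divisors -/
theorem sum_log (K : Finset ℕ) (hK : ∀ p ∈ K, p.Prime) :
    ∑ l ∈ (pr K).divisors, sw_g l * Real.log l = Mm K * ∑ l ∈ (pr K).divisors, sw_g l := by
  have hs := pr_squarefree K hK
  have h1 : ∀ l ∈ (pr K).divisors, sw_g l * Real.log l =
      ∑ p ∈ K, if p ∣ l then sw_g l * Real.log p else 0 := by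
    intro l hl
    have hls : Squarefree l := hs.squarefree_of_dvd (Nat.dvd_of_mem_divisors hl)
    rw [log_squarefree hls, Finset.mul_sum, ← Finset.sum_filter]
    refine Finset.sum_congr ?_ fun _ _ => rfl
    ext p
    rw [Nat.mem_primeFactors, Finset.mem_filter]
    constructor
    · rintro ⟨hp, hpl, _⟩
      refine ⟨?_, hpl⟩
      rw [← pr_primeFactors K hK]
      exact Nat.mem_primeFactors.2 ⟨hp, hpl.trans (Nat.dvd_of_mem_divisors hl), hs.ne_zero⟩
    · rintro ⟨hpK, hpl⟩
      exact ⟨hK p hpK, hpl, hls.ne_zero⟩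
  rw [Finset.sum_congr rfl h1, Finset.sum_comm]
  unfold Mm
  rw [Finset.sum_mul]
  refine Finset.sum_congr rfl fun p hp => ?_
  have hpp := hK p hp
  have hpq : p ∣ pr K := Finset.dvd_prod_of_mem _ hp
  have h2 := sum_dvd hs hpp hpq
  have hp0 : (0 : ℝ) < p := by exact_mod_cast hpp.pos
  rw [← Finset.sum_filter, ← Finset.sum_mul, ← h2]
  field_simp

/-- the main inequality -/
theorem ineq (K : Finset ℕ) (hK : ∀ p ∈ K, p.Prime) (L : ℕ) (t : ℝ) (hL : 2 ≤ L) (ht : 0 < t) :
    (∑ l ∈ (pr (K.filter (fun p => p ≤ L))).divisors.filter (fun l => l ≤ L ^ 2), sw_g l) *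
      ∑ m ∈ (Icc 1 ⌊t⌋₊).filter (fun m : ℕ => t / (L : ℝ) < (m : ℝ)), selwq_g (pr K) m ≤
    ∑ n ∈ (Icc 1 ⌊t * (L : ℝ) ^ 2⌋₊).filter (fun n : ℕ => t / (L : ℝ) < (n : ℝ)), sw_g n := by
  set K' := K.filter (fun p => p ≤ L) with hK'def
  have hK' : ∀ p ∈ K', p.Prime := fun p hp => hK p (Finset.mem_filter.1 hp).1
  set q := pr K' with hq
  have hqs : Squarefree q := pr_squarefree K' hK'
  have hqK : q ∣ pr K := Finset.prod_dvd_prod_of_subset _ _ _ (Finset.filter_subset _ _)
  set M := (Icc 1 ⌊t⌋₊).filter (fun m : ℕ => t / (L : ℝ) < (m : ℝ)) with hM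
  set Q := q.divisors.filter (fun l => l ≤ L ^ 2) with hQ
  set M' := M.filter (fun m => m.Coprime q) with hM'
  have h1 : ∑ m ∈ M, selwq_g (pr K) m ≤ ∑ m ∈ M', sw_g m := by
    rw [hM', Finset.sum_filter (fun m : ℕ => m.Coprime q) sw_g]
    refine Finset.sum_le_sum fun m _ => ?_
    unfold selwq_g
    by_cases h : m.Coprime (pr K)
    · rw [if_pos h, if_pos (Nat.Coprime.coprime_dvd_right hqK h)]
    · rw [if_neg h]
      split_ifs
      · exact sw_g_nonneg m
      · exact le_rfl
  have hQ0 : 0 ≤ ∑ l ∈ Q, sw_g l := Finset.sum_nonneg fun l _ => sw_g_nonneg l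
  refine (mul_le_mul_of_nonneg_left h1 hQ0).trans ?_
  rw [Finset.sum_mul_sum, ← Finset.sum_product']
  have h2 : ∀ x ∈ Q ×ˢ M', sw_g x.1 * sw_g x.2 = sw_g (x.1 * x.2) := by
    intro x hx
    rw [Finset.mem_product, hQ, hM', Finset.mem_filter, Finset.mem_filter, Nat.mem_divisors] at hx
    rw [sw_g_mul]
    exact (Nat.Coprime.coprime_dvd_right hx.1.1.1 hx.2.2).symm
  rw [Finset.sum_congr rfl h2]
  have hinj : Set.InjOn (fun x : ℕ × ℕ => x.1 * x.2) (Q ×ˢ M' : Finset (ℕ × ℕ)) := by
    rintro ⟨l, m⟩ hx ⟨l', m'⟩ hx' heq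
    rw [Finset.mem_coe, Finset.mem_product, hQ, hM', Finset.mem_filter, Finset.mem_filter,
      Nat.mem_divisors] at hx hx'
    simp only at hx hx' heq
    have g1 : (l * m).gcd q = l := by
      rw [Nat.Coprime.gcd_mul_right_cancel l hx.2.2]
      exact Nat.gcd_eq_left hx.1.1.1
    have g2 : (l' * m').gcd q = l' := by
      rw [Nat.Coprime.gcd_mul_right_cancel l' hx'.2.2]
      exact Nat.gcd_eq_left hx'.1.1.1
    have hll : l = l' := by rw [← g1, ← g2, heq]
    subst hll
    have hl0 : 0 < l := Nat.pos_of_dvd_of_pos hx.1.1.1 (Nat.pos_of_ne_zero hqs.ne_zero)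
    have hmm : m = m' := Nat.eq_of_mul_eq_mul_left hl0 heq
    subst hmm
    rfl
  have h3 : ∑ x ∈ Q ×ˢ M', sw_g (x.1 * x.2) =
      ∑ n ∈ (Q ×ˢ M').image (fun x : ℕ × ℕ => x.1 * x.2), sw_g n := by
    rw [Finset.sum_image hinj]
  rw [h3]
  apply Finset.sum_le_sum_of_subset_of_nonneg
  · intro n hn
    obtain ⟨⟨l, m⟩, hx, rfl⟩ := Finset.mem_image.1 hn
    rw [Finset.mem_product, hQ, hM', hM, Finset.mem_filter, Finset.mem_filter, Finset.mem_filter,
      Nat.mem_divisors, Finset.mem_Icc] at hx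
    simp only at hx ⊢
    obtain ⟨⟨⟨hlq, hq0⟩, hlL⟩, ⟨⟨hm1, hmt⟩, hmL⟩, hmc⟩ := hx
    have hl0 : 0 < l := Nat.pos_of_dvd_of_pos hlq (Nat.pos_of_ne_zero hq0)
    have hmt' : (m : ℝ) ≤ t := (Nat.le_floor_iff ht.le).1 hmt
    have hlL' : (l : ℝ) ≤ (L : ℝ) ^ 2 := by exact_mod_cast hlL
    have hl1 : (1 : ℝ) ≤ l := by exact_mod_cast hl0
    have hm0 : (0 : ℝ) ≤ m := Nat.cast_nonneg m
    rw [Finset.mem_filter, Finset.mem_Icc]
    refine ⟨⟨Nat.mul_pos hl0 hm1, ?_⟩, ?_⟩
    · rw [Nat.le_floor_iff (by positivity), Nat.cast_mul]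
      calc (l : ℝ) * m ≤ (L : ℝ) ^ 2 * t := mul_le_mul hlL' hmt' hm0 (by positivity)
        _ = t * (L : ℝ) ^ 2 := mul_comm _ _
    · rw [Nat.cast_mul]
      calc t / (L : ℝ) < m := hmL
        _ = 1 * m := (one_mul _).symm
        _ ≤ l * m := mul_le_mul_of_nonneg_right hl1 hm0
  · intro n _ _
    exact sw_g_nonneg n

theorem up : S_HI → S_MER → S_UP := by
  rintro ⟨C, hC1, hC⟩ ⟨C₀, hC₀1, hC₀⟩
  set P : Finset ℕ := (Icc 1 ⌊Real.exp (2 * C₀)⌋₊).filter Nat.Prime with hP
  have hPp : ∀ p ∈ P, p.Prime := fun p hp => (Finset.mem_filter.1 hp).2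
  have hv0 := V_pos P hPp
  set v := V P with hv
  have hv1 : v ≤ 1 := by
    rw [hv]
    unfold V
    refine Finset.prod_le_one (fun p hp => ?_) (fun p hp => ?_)
    · have h2 : (2 : ℝ) ≤ p := by exact_mod_cast (hPp p hp).two_le
      have : 1 / (p : ℝ) < 1 := by
        rw [div_lt_one (by linarith)]
        linarith
      linarith
    · have : 0 ≤ 1 / (p : ℝ) := by positivity
      linarith
  refine ⟨4 * (3 + 2 * C) + (1 + 2 * C) / v, ?_, ?_⟩
  · have : 0 ≤ (1 + 2 * C) / v := by positivity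
    linarith
  intro K hK L t hL ht
  set K' := K.filter (fun p => p ≤ L) with hK'def
  have hK' : ∀ p ∈ K', p.Prime := fun p hp => hK p (Finset.mem_filter.1 hp).1
  have hVK := V_pos K' hK'
  set T := ∑ m ∈ (Icc 1 ⌊t⌋₊).filter (fun m : ℕ => t / (L : ℝ) < (m : ℝ)), selwq_g (pr K) m with hT
  have hT0 : 0 ≤ T := Finset.sum_nonneg fun m _ => selwq_g_nonneg _ m
  have hL2 : (2 : ℝ) ≤ L := by exact_mod_cast hL
  have hL0 : (0 : ℝ) < L := by linarith
  have hlog2 : 1 / 2 ≤ Real.log L := by
    have h1 := Real.log_two_gt_d9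
    have h2 : Real.log 2 ≤ Real.log L := Real.log_le_log (by norm_num) hL2
    linarith
  have hCl : C ≤ 2 * C * Real.log L := by nlinarith
  by_cases hcase : 2 * C₀ ≤ Real.log L
  · -- the main case
    set q := pr K' with hq
    set F := ∑ l ∈ q.divisors, sw_g l with hF
    have hVF : V K' * F = 1 := sum_div K' hK'
    have hF0 : 0 < F := by
      by_contra hn
      push Not at hn
      nlinarith
    have hlg := sum_log K' hK'
    rw [← hq, ← hF] at hlg
    have hMm : Mm K' ≤ Real.log L + C₀ := by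
      have h1 := (abs_le.1 (hC₀ L (by linarith))).2
      have h2 : Mm K' ≤ ∑ p ∈ (Icc 1 ⌊(L : ℝ)⌋₊).filter Nat.Prime, Real.log p / (p : ℝ) := by
        unfold Mm
        apply Finset.sum_le_sum_of_subset_of_nonneg
        · intro p hp
          rw [hK'def, Finset.mem_filter] at hp
          rw [Finset.mem_filter, Finset.mem_Icc, Nat.floor_natCast]
          exact ⟨⟨(hK p hp.1).one_lt.le, hp.2⟩, hK p hp.1⟩
        · intro p _ _
          have : 0 ≤ Real.log (p : ℝ) := Real.log_natCast_nonneg p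
          positivity
      linarith
    have hmark : 2 * Real.log L * ∑ l ∈ q.divisors.filter (fun l => ¬ l ≤ L ^ 2), sw_g l ≤
        Mm K' * F := by
      rw [← hlg, Finset.mul_sum]
      calc ∑ l ∈ q.divisors.filter (fun l => ¬ l ≤ L ^ 2), 2 * Real.log L * sw_g l ≤
          ∑ l ∈ q.divisors.filter (fun l => ¬ l ≤ L ^ 2), sw_g l * Real.log l := by
            refine Finset.sum_le_sum fun l hl => ?_
            have hl2 := (Finset.mem_filter.1 hl).2
            push Not at hl2
            have h1 : 2 * Real.log L ≤ Real.log l := by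
              have e1 : ((L : ℝ)) ^ 2 ≤ l := by exact_mod_cast hl2.le
              have e2 : Real.log ((L : ℝ) ^ 2) ≤ Real.log l := Real.log_le_log (by positivity) e1
              rw [Real.log_pow] at e2
              push_cast at e2
              exact e2
            have h2 := sw_g_nonneg l
            nlinarith
        _ ≤ ∑ l ∈ q.divisors, sw_g l * Real.log l := by
            apply Finset.sum_le_sum_of_subset_of_nonneg (Finset.filter_subset _ _)
            intro l _ _
            exact mul_nonneg (sw_g_nonneg l) (Real.log_natCast_nonneg l)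
    have hsplit := Finset.sum_filter_add_sum_filter_not q.divisors (fun l => l ≤ L ^ 2) sw_g
    rw [← hF] at hsplit
    set F₁ := ∑ l ∈ q.divisors.filter (fun l => l ≤ L ^ 2), sw_g l with hF₁
    set F₂ := ∑ l ∈ q.divisors.filter (fun l => ¬ l ≤ L ^ 2), sw_g l with hF₂
    have hlogpos : 0 < Real.log L := by linarith
    have hF2le : F₂ ≤ 3 / 4 * F := by
      have h1 : 2 * Real.log L * F₂ ≤ 2 * Real.log L * (3 / 4 * F) := by
        calc 2 * Real.log L * F₂ ≤ Mm K' * F := hmark
          _ ≤ (Real.log L + C₀) * F := mul_le_mul_of_nonneg_right hMm hF0.le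
          _ ≤ (3 / 2 * Real.log L) * F := by
              apply mul_le_mul_of_nonneg_right _ hF0.le
              linarith
          _ = _ := by ring
      exact le_of_mul_le_mul_left h1 (by linarith)
    have hF1ge : F / 4 ≤ F₁ := by linarith
    have hin := ineq K hK L t hL ht
    rw [← hK'def, ← hq, ← hF₁, ← hT] at hin
    have hhi := hC (t / L) (t * (L : ℝ) ^ 2) (by positivity) (by
      have h1 : t / L ≤ t := div_le_self ht.le (by linarith)
      have h2 : t ≤ t * (L : ℝ) ^ 2 := le_mul_of_one_le_right ht.le (by nlinarith)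
      exact h1.trans h2)
    have hlog3 : Real.log (t * (L : ℝ) ^ 2 / (t / L)) = 3 * Real.log L := by
      have : t * (L : ℝ) ^ 2 / (t / L) = (L : ℝ) ^ 3 := by
        field_simp
      rw [this, Real.log_pow]
      norm_num
    rw [hlog3] at hhi
    have h1 : F / 4 * T ≤ 3 * Real.log L + C := by
      calc F / 4 * T ≤ F₁ * T := mul_le_mul_of_nonneg_right hF1ge hT0
        _ ≤ _ := hin
        _ ≤ _ := hhi
    have h2 : T ≤ 4 * V K' * (3 * Real.log L + C) := by
      have e1 : T = 4 * V K' * (F / 4 * T) := by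
        calc T = (V K' * F) * T := by rw [hVF, one_mul]
          _ = _ := by ring
      rw [e1]
      exact mul_le_mul_of_nonneg_left h1 (by positivity)
    calc T ≤ 4 * V K' * (3 * Real.log L + C) := h2
      _ ≤ 4 * V K' * (3 * Real.log L + 2 * C * Real.log L) := by
          apply mul_le_mul_of_nonneg_left _ (by positivity)
          linarith
      _ = 4 * (3 + 2 * C) * Real.log L * V K' := by ring
      _ ≤ (4 * (3 + 2 * C) + (1 + 2 * C) / v) * Real.log L * V K' := by
          have : 0 ≤ (1 + 2 * C) / v * Real.log L * V K' := by positivity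
          nlinarith
  · push Not at hcase
    have hlogpos : 0 < Real.log L := by linarith
    have hsub : K' ⊆ P := by
      intro p hp
      rw [hK'def, Finset.mem_filter] at hp
      rw [hP, Finset.mem_filter, Finset.mem_Icc]
      refine ⟨⟨(hK p hp.1).one_lt.le, ?_⟩, hK p hp.1⟩
      rw [Nat.le_floor_iff (Real.exp_pos _).le]
      calc (p : ℝ) ≤ L := by exact_mod_cast hp.2
        _ = Real.exp (Real.log L) := (Real.exp_log hL0).symm
        _ ≤ Real.exp (2 * C₀) := Real.exp_le_exp.2 hcase.le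
    have hvle : v ≤ V K' := by
      rw [hv]
      unfold V
      rw [← Finset.prod_sdiff hsub]
      have h1 : ∏ p ∈ P \ K', (1 - 1 / (p : ℝ)) ≤ 1 := by
        refine Finset.prod_le_one (fun p hp => ?_) (fun p hp => ?_)
        · have h2 : (2 : ℝ) ≤ p := by exact_mod_cast (hPp p (Finset.mem_sdiff.1 hp).1).two_le
          have : 1 / (p : ℝ) < 1 := by
            rw [div_lt_one (by linarith)]
            linarith
          linarith
        · have : 0 ≤ 1 / (p : ℝ) := by positivity
          linarith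
      have h2 : 0 < ∏ p ∈ K', (1 - 1 / (p : ℝ)) := hVK
      nlinarith
    have h1 : T ≤ Real.log L + C := by
      have hhi := hC (t / L) t (by positivity) (div_le_self ht.le (by linarith))
      have hlog1 : Real.log (t / (t / L)) = Real.log L := by
        have : t / (t / L) = L := by field_simp
        rw [this]
      rw [hlog1] at hhi
      refine le_trans (Finset.sum_le_sum fun m _ => ?_) hhi
      unfold selwq_g
      split_ifs
      · exact le_rfl
      · exact sw_g_nonneg m
    have h2 : 1 ≤ V K' / v := by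
      rw [le_div_iff₀ hv0]
      linarith
    calc T ≤ Real.log L + C := h1
      _ ≤ (1 + 2 * C) * Real.log L := by linarith
      _ = (1 + 2 * C) * Real.log L * 1 := (mul_one _).symm
      _ ≤ (1 + 2 * C) * Real.log L * (V K' / v) := by
          apply mul_le_mul_of_nonneg_left h2
          positivity
      _ = (1 + 2 * C) / v * Real.log L * V K' := by ring
      _ ≤ (4 * (3 + 2 * C) + (1 + 2 * C) / v) * Real.log L * V K' := by
          have : 0 ≤ 4 * (3 + 2 * C) * Real.log L * V K' := by positivity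
          nlinarith

end Pool.Agent.P8H20.GM
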